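import Pool.Agent.Helper22.WC.Defs
import Pool.Agent.Helper60.WC.SupE

/-!
# WC (MP_fb29e9_nt), block D5: the largest error over all centres, all test functions of polynomial growth
(adapted from helper75's LW/Grow)
-/

open MeasureTheory Real Set Filter Topology

set_option autoImplicit false

namespace Pool.Agent.Helper85.WC

open Pool.Agent.Helper22.AE
open Pool.Agent.Helper22.AC (cntc)
open Pool.Agent.Helper22.WC (SupE LimS)
open Pool.Agent.Helper92.LW (fjk cut)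

/-- bounded and measurable on `[X, 2 X]` -/
private def BM (X : ℝ) (f : ℝ → ℝ) : Prop :=
  AEMeasurable f (volume.restrict (Icc X (2 * X))) ∧ ∃ B : ℝ, ∀ R ∈ Icc X (2 * X), |f R| ≤ B

private lemma BM.int {X : ℝ} {f : ℝ → ℝ} (h : BM X f) : IntegrableOn f (Icc X (2 * X)) := by
  obtain ⟨h1, B, hB⟩ := h
  have : IsFiniteMeasure (volume.restrict (Icc X (2 * X))) := ⟨by
    rw [Measure.restrict_apply_univ]
    exact measure_Icc_lt_top⟩
  refine Integrable.of_bound h1.aestronglyMeasurable B ?_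
  rw [ae_restrict_iff' measurableSet_Icc]
  exact Eventually.of_forall fun R hR => by
    rw [Real.norm_eq_abs]
    exact hB R hR

private lemma BM.sub {X : ℝ} {f g : ℝ → ℝ} (hf : BM X f) (hg : BM X g) : BM X (fun R => f R - g R) := by
  obtain ⟨h1, B, hB⟩ := hf
  obtain ⟨h2, B', hB'⟩ := hg
  exact ⟨h1.sub h2, B + B', fun R hR => (abs_sub _ _).trans (add_le_add (hB R hR) (hB' R hR))⟩

private lemma BM.mul {X : ℝ} {f g : ℝ → ℝ} (hf : BM X f) (hg : BM X g) : BM X (fun R => f R * g R) := by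
  obtain ⟨h1, B, hB⟩ := hf
  obtain ⟨h2, B', hB'⟩ := hg
  refine ⟨h1.mul h2, B * B', fun R hR => ?_⟩
  rw [abs_mul]
  exact mul_le_mul (hB R hR) (hB' R hR) (abs_nonneg _) ((abs_nonneg _).trans (hB R hR))

private lemma BM.pow {X : ℝ} {f : ℝ → ℝ} (hf : BM X f) (n : ℕ) : BM X (fun R => f R ^ n) := by
  obtain ⟨h1, B, hB⟩ := hf
  refine ⟨h1.pow_const n, B ^ n, fun R hR => ?_⟩
  rw [abs_pow]
  exact pow_le_pow_left₀ (abs_nonneg _) (hB R hR) n

private lemma BM.abs {X : ℝ} {f : ℝ → ℝ} (hf : BM X f) : BM X (fun R => |f R|) := by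
  obtain ⟨h1, B, hB⟩ := hf
  refine ⟨h1.abs, B, fun R hR => ?_⟩
  rw [abs_abs]
  exact hB R hR

private lemma BM.cont {X : ℝ} {f : ℝ → ℝ} (hf : ContinuousOn f (Icc X (2 * X))) : BM X f := by
  refine ⟨(hf.aemeasurable measurableSet_Icc), ?_⟩
  obtain ⟨C, hC⟩ := isCompact_Icc.exists_bound_of_continuousOn hf
  exact ⟨C, fun R hR => by simpa [Real.norm_eq_abs] using hC R hR⟩

/-- a continuous function of a bounded measurable function -/
private lemma BM.comp {X : ℝ} {f φ : ℝ → ℝ} (hf : BM X f) (hφ : Continuous φ) : BM X (fun R => φ (f R)) := by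
  obtain ⟨h1, B, hB⟩ := hf
  obtain ⟨C, hC⟩ := (isCompact_Icc : IsCompact (Icc (-B) B)).exists_bound_of_continuousOn hφ.continuousOn
  exact ⟨hφ.measurable.comp_aemeasurable h1, C, fun R hR => by simpa [Real.norm_eq_abs] using hC _ (abs_le.1 (hB R hR))⟩

/-- the normalized error at the worst centre -/
private noncomputable def er (H : ℝ → ℝ) (R : ℝ) : ℝ := SupE H R / sqrt R

/-- the largest error is measurable and locally bounded -/
private def Ok (H : ℝ → ℝ) : Prop :=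
  Measurable (SupE H) ∧ ∀ Y : ℝ, ∃ C : ℝ, ∀ R ∈ Icc 1 Y, 0 ≤ SupE H R ∧ SupE H R ≤ C

private lemma sup_bm {H : ℝ → ℝ} (hO : Ok H) {X : ℝ} (hX : 1 ≤ X) : BM X (SupE H) := by
  refine ⟨hO.1.aemeasurable, ?_⟩
  obtain ⟨C, hC⟩ := hO.2 (2 * X)
  refine ⟨C, fun R hR => ?_⟩
  have h1 := hC R ⟨hX.trans hR.1, hR.2⟩
  rw [abs_of_nonneg h1.1]
  exact h1.2

private lemma er_bm {H : ℝ → ℝ} (hO : Ok H) {X : ℝ} (hX : 1 ≤ X) : BM X (er H) := by
  have h3 : BM X fun R => (sqrt R)⁻¹ := by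
    refine BM.cont (ContinuousOn.inv₀ continuous_sqrt.continuousOn fun R hR => ?_)
    have : 0 < R := by linarith [hR.1]
    positivity
  exact (sup_bm hO hX).mul h3

/-- the mean -/
private noncomputable def mn (H : ℝ → ℝ) (φ : ℝ → ℝ) (X : ℝ) : ℝ :=
  X⁻¹ * (∫ R in Icc X (2 * X), φ (er H R))

private lemma mn_int {H : ℝ → ℝ} (hO : Ok H) {X : ℝ} (hX : 1 ≤ X)
    {φ : ℝ → ℝ} (hφ : Continuous φ) : IntegrableOn (fun R => φ (er H R)) (Icc X (2 * X)) :=
  ((er_bm hO hX).comp hφ).int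

private lemma mn_near {H : ℝ → ℝ} (hO : Ok H) {X : ℝ} (hX : 1 ≤ X)
    {φ ψ : ℝ → ℝ} (hφ : Continuous φ) (hψ : Continuous ψ) {δ : ℝ} (h : ∀ y, |φ y - ψ y| ≤ δ) :
    |mn H φ X - mn H ψ X| ≤ δ := by
  have hX0 : (0 : ℝ) < X := by linarith
  unfold mn
  rw [← mul_sub, ← integral_sub (mn_int hO hX hφ) (mn_int hO hX hψ), abs_mul, abs_of_pos (inv_pos.2 hX0)]
  have h1 : |∫ R in Icc X (2 * X), (φ (er H R) - ψ (er H R))| ≤ δ * X := by
    have h2 := norm_setIntegral_le_of_norm_le_const (μ := volume) (s := Icc X (2 * X))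
      (f := fun R => φ (er H R) - ψ (er H R)) (C := δ) measure_Icc_lt_top
      (fun R _ => by rw [Real.norm_eq_abs]; exact h _)
    rw [Real.norm_eq_abs, Measure.real, Real.volume_Icc, ENNReal.toReal_ofReal (by linarith)] at h2
    have h3 : 2 * X - X = X := by ring
    rwa [h3] at h2
  calc X⁻¹ * |∫ R in Icc X (2 * X), (φ (er H R) - ψ (er H R))| ≤ X⁻¹ * (δ * X) :=
        mul_le_mul_of_nonneg_left h1 (inv_pos.2 hX0).le
    _ = δ := by field_simp

private lemma lim_sum {H : ℝ → ℝ} (hO : Ok H) {g : ℕ → ℝ → ℝ}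
    (hg : ∀ j, Continuous (g j)) (hlim : ∀ j, LimS H (g j)) (a : ℕ → ℝ) (n : ℕ) :
    LimS H (fun y => ∑ j ∈ Finset.range n, a j * g j y) := by
  induction n with
  | zero =>
    refine ⟨0, fun ε hε => ⟨1, le_rfl, fun X hX => ?_⟩⟩
    simp only [Finset.range_zero, Finset.sum_empty, integral_zero, mul_zero, sub_zero, abs_zero]
    exact hε.le
  | succ n ih =>
    obtain ⟨m, hm⟩ := ih
    obtain ⟨m', hm'⟩ := hlim n
    refine ⟨m + a n * m', fun ε hε => ?_⟩
    obtain ⟨X₀, hX₀, h1⟩ := hm (ε / 2) (by positivity)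
    have hA : 0 < 2 * (|a n| + 1) := by positivity
    obtain ⟨X₁, hX₁, h2⟩ := hm' (ε / (2 * (|a n| + 1))) (by positivity)
    refine ⟨max X₀ X₁, hX₀.trans (le_max_left _ _), fun X hX => ?_⟩
    have hX0 : X₀ ≤ X := (le_max_left _ _).trans hX
    have hX1 : X₁ ≤ X := (le_max_right _ _).trans hX
    have hX' : 1 ≤ X := hX₀.trans hX0
    have e1 := h1 X hX0
    have e2 := h2 X hX1
    have hc : Continuous fun y => ∑ j ∈ Finset.range n, a j * g j y :=
      continuous_finsetSum _ fun j _ => continuous_const.mul (hg j)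
    have e3 : X⁻¹ * (∫ R in Icc X (2 * X), ∑ j ∈ Finset.range (n + 1), a j * g j (SupE H R / sqrt R)) =
        X⁻¹ * (∫ R in Icc X (2 * X), ∑ j ∈ Finset.range n, a j * g j (SupE H R / sqrt R)) +
        a n * (X⁻¹ * (∫ R in Icc X (2 * X), g n (SupE H R / sqrt R))) := by
      have i1 : Integrable (fun R => ∑ j ∈ Finset.range n, a j * g j (SupE H R / sqrt R))
          (volume.restrict (Icc X (2 * X))) := mn_int hO hX' hc
      have i2 : Integrable (fun R => a n * g n (SupE H R / sqrt R))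
          (volume.restrict (Icc X (2 * X))) := mn_int hO hX' (φ := fun y => a n * g n y) (continuous_const.mul (hg n))
      simp only [Finset.sum_range_succ]
      rw [integral_add i1 i2, integral_const_mul]
      ring
    rw [e3]
    have e4 : |a n| * (ε / (2 * (|a n| + 1))) ≤ ε / 2 := by
      rw [mul_div_assoc', div_le_div_iff₀ hA (by norm_num)]
      nlinarith [abs_nonneg (a n)]
    have e5 : |a n * (X⁻¹ * (∫ R in Icc X (2 * X), g n (SupE H R / sqrt R))) - a n * m'| ≤ ε / 2 := by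
      rw [← mul_sub, abs_mul]
      exact (mul_le_mul_of_nonneg_left e2 (abs_nonneg _)).trans e4
    rw [abs_le] at e1 e5 ⊢
    constructor <;> linarith [e1.1, e1.2, e5.1, e5.2]

/-- a Cauchy criterion -/
private lemma lim_of_approx {H φ : ℝ → ℝ} (h : ∀ ε : ℝ, 0 < ε → ∃ m X₀ : ℝ, 1 ≤ X₀ ∧ ∀ X : ℝ, X₀ ≤ X →
    |mn H φ X - m| ≤ ε) : LimS H φ := by
  choose m X₀ hX₀ hm using fun n : ℕ => h (1 / ((n : ℝ) + 1)) (by positivity)
  have hd : ∀ n k : ℕ, |m n - m k| ≤ 1 / ((n : ℝ) + 1) + 1 / ((k : ℝ) + 1) := by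
    intro n k
    have h1 := hm n (max (X₀ n) (X₀ k)) (le_max_left _ _)
    have h2 := hm k (max (X₀ n) (X₀ k)) (le_max_right _ _)
    rw [abs_le] at h1 h2 ⊢
    constructor <;> linarith [h1.1, h1.2, h2.1, h2.2]
  have hc : CauchySeq m := by
    refine Metric.cauchySeq_iff'.2 fun ε hε => ?_
    obtain ⟨N, hN⟩ := exists_nat_gt (2 / ε)
    refine ⟨N, fun n hn => ?_⟩
    rw [Real.dist_eq]
    refine (hd n N).trans_lt ?_
    have hN0 : (0 : ℝ) < (N : ℝ) + 1 := by positivity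
    have h1 : 1 / ((n : ℝ) + 1) ≤ 1 / ((N : ℝ) + 1) := by
      apply one_div_le_one_div_of_le hN0
      have : (N : ℝ) ≤ n := by exact_mod_cast hn
      linarith
    have h2 : 1 / ((N : ℝ) + 1) < ε / 2 := by
      rw [div_lt_div_iff₀ hN0 (by norm_num)]
      rw [div_lt_iff₀ hε] at hN
      nlinarith
    linarith
  obtain ⟨l, hl⟩ := cauchySeq_tendsto_of_complete hc
  have hb : ∀ n : ℕ, |m n - l| ≤ 1 / ((n : ℝ) + 1) := by
    intro n
    have h1 : Tendsto (fun k : ℕ => |m n - m k|) atTop (𝓝 |m n - l|) := (tendsto_const_nhds.sub hl).abs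
    have h2 : Tendsto (fun k : ℕ => 1 / ((n : ℝ) + 1) + 1 / ((k : ℝ) + 1)) atTop (𝓝 (1 / ((n : ℝ) + 1) + 0)) :=
      tendsto_const_nhds.add tendsto_one_div_add_atTop_nhds_zero_nat
    have h3 := le_of_tendsto_of_tendsto' h1 h2 (hd n)
    linarith
  refine ⟨l, fun ε hε => ?_⟩
  obtain ⟨n, hn⟩ := exists_nat_gt (2 / ε)
  refine ⟨X₀ n, hX₀ n, fun X hX => ?_⟩
  have h1 := hm n X hX
  have h2 := hb n
  have h3 : 1 / ((n : ℝ) + 1) ≤ ε / 2 := by
    rw [div_le_div_iff₀ (by positivity) (by norm_num)]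
    rw [div_lt_iff₀ hε] at hn
    nlinarith
  change |mn H φ X - l| ≤ ε
  rw [abs_le] at h1 h2 ⊢
  constructor <;> linarith [h1.1, h1.2, h2.1, h2.2]

private lemma cut_nonneg (K : ℕ) (y : ℝ) : 0 ≤ cut K y := le_max_left _ _

private lemma cut_le_one (K : ℕ) (y : ℝ) : cut K y ≤ 1 := max_le zero_le_one (min_le_left _ _)

private lemma cut_cont (K : ℕ) : Continuous (cut K) := by
  unfold cut
  fun_prop

private lemma cut_eq_one {K : ℕ} {y : ℝ} (h : |y| ≤ (K : ℝ) + 1) : cut K y = 1 := by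
  unfold cut
  have hK : (0 : ℝ) < (K : ℝ) + 1 := by positivity
  have h1 : |y| / ((K : ℝ) + 1) ≤ 1 := (div_le_one hK).2 h
  rw [min_eq_left (by linarith), max_eq_right zero_le_one]

private lemma cut_eq_zero {K : ℕ} {y : ℝ} (h : 2 * ((K : ℝ) + 1) ≤ |y|) : cut K y = 0 := by
  unfold cut
  have hK : (0 : ℝ) < (K : ℝ) + 1 := by positivity
  have h1 : 2 ≤ |y| / ((K : ℝ) + 1) := (le_div_iff₀ hK).2 h
  exact max_eq_left ((min_le_right _ _).trans (by linarith))

/-- the `2J`-th moment of the normalized largest error -/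
private lemma mean_pow_le {H : ℝ → ℝ} (hO : Ok H)
    (hid : ∀ p : ℝ, 0 < p → ∀ R : ℝ, ⨆ c : ℝ × ℝ, ENNReal.ofReal (|cntc H c R - area H * R ^ 2| ^ p) = ENNReal.ofReal (SupE H R ^ p))
    {J : ℕ} (hJ : 0 < J) {C : ℝ} (hC0 : 0 ≤ C)
    (hC : ∀ X : ℝ, 1 ≤ X → Pool.Agent.Helper92.MM.mom J H X ≤ ENNReal.ofReal (C * X ^ (1 + J))) {X : ℝ} (hX : 1 ≤ X) :
    mn H (fun y => |y| ^ (2 * J)) X ≤ C := by
  have hX0 : (0 : ℝ) < X := by linarith
  have hE : BM X fun R => |SupE H R| ^ (2 * J) := ((sup_bm hO hX).abs).pow _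
  have h1 : ∫ R in Icc X (2 * X), |SupE H R| ^ (2 * J) ≤ C * X ^ (1 + J) := by
    rw [integral_eq_lintegral_of_nonneg_ae (Eventually.of_forall fun R => by positivity) hE.1.aestronglyMeasurable]
    refine ENNReal.toReal_le_of_le_ofReal (by positivity) (le_trans ?_ (hC X hX))
    unfold Pool.Agent.Helper92.MM.mom
    refine setLIntegral_mono' measurableSet_Icc fun R hR => le_of_eq ?_
    have h2 := hid ((2 * J : ℕ) : ℝ) (by positivity) R
    simp only [Real.rpow_natCast] at h2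
    obtain ⟨B, hB⟩ := hO.2 (2 * X)
    rw [abs_of_nonneg (hB R ⟨hX.trans hR.1, hR.2⟩).1]
    exact h2.symm
  have h2 : ∫ R in Icc X (2 * X), |er H R| ^ (2 * J) ≤ ∫ R in Icc X (2 * X), (X ^ J)⁻¹ * |SupE H R| ^ (2 * J) := by
    refine setIntegral_mono_on (mn_int hO hX (φ := fun y => |y| ^ (2 * J)) (by fun_prop)) (hE.int.const_mul _) measurableSet_Icc
      fun R hR => ?_
    have hR0 : 0 < R := by linarith [hR.1]
    unfold er
    rw [abs_div, abs_of_nonneg (sqrt_nonneg R), div_pow, pow_mul (sqrt R), sq_sqrt hR0.le, div_eq_inv_mul]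
    refine mul_le_mul_of_nonneg_right ?_ (by positivity)
    exact inv_anti₀ (by positivity) (pow_le_pow_left₀ hX0.le hR.1 J)
  rw [integral_const_mul] at h2
  unfold mn
  calc X⁻¹ * (∫ R in Icc X (2 * X), |er H R| ^ (2 * J)) ≤ X⁻¹ * ((X ^ J)⁻¹ * (C * X ^ (1 + J))) := by
        refine mul_le_mul_of_nonneg_left (h2.trans ?_) (inv_pos.2 hX0).le
        exact mul_le_mul_of_nonneg_left h1 (by positivity)
    _ = C := by
        rw [pow_add]
        field_simp

theorem grow_S {H : ℝ → ℝ} (hH : ContDiff ℝ 2 H) (hp : Function.Periodic H (2 * π)) (hr : ∀ θ, 0 < H θ + deriv (deriv H) θ) (hS : ∀ j K : ℕ, LimS H (fjk j K))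
    (hM : ∀ J : ℕ, ∃ C : ℝ, ∀ X : ℝ, 1 ≤ X → Pool.Agent.Helper92.MM.mom J H X ≤ ENNReal.ofReal (C * X ^ (1 + J)))
    {φ : ℝ → ℝ} (hφ : Continuous φ) {A : ℝ} {q : ℕ} (hg : ∀ y, |φ y| ≤ A * (1 + |y|) ^ q) : LimS H φ := by
  obtain ⟨-, hloc, hmeas, hid⟩ := Pool.Agent.Helper60.WC.supE_facts hH hp hr
  have hO : Ok H := ⟨hmeas, hloc⟩
  have hA : 0 ≤ A := by
    have := (abs_nonneg _).trans (hg 0)
    simpa using this
  obtain ⟨C', hC'⟩ := hM (q + 1)
  set C : ℝ := max C' 0 with hCdef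
  have hC0 : 0 ≤ C := le_max_right _ _
  have hC : ∀ X : ℝ, 1 ≤ X → Pool.Agent.Helper92.MM.mom (q + 1) H X ≤ ENNReal.ofReal (C * X ^ (1 + (q + 1))) := fun X hX =>
    (hC' X hX).trans (ENNReal.ofReal_le_ofReal (mul_le_mul_of_nonneg_right (le_max_left _ _) (by positivity)))
  refine lim_of_approx fun ε hε => ?_
  -- the cutoff
  obtain ⟨K, hK⟩ := exists_nat_gt (A * 2 ^ q * C / (ε / 3))
  have hK0 : (0 : ℝ) < (K : ℝ) + 1 := by positivity
  have hK1 : A * 2 ^ q * C / ((K : ℝ) + 1) ≤ ε / 3 := by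
    rw [div_lt_iff₀ (by positivity)] at hK
    rw [div_le_iff₀ hK0]
    nlinarith
  set ψ : ℝ → ℝ := fun y => φ y * cut K y with hψdef
  have hψ : Continuous ψ := hφ.mul (cut_cont K)
  have htail : ∀ X : ℝ, 1 ≤ X → |mn H φ X - mn H ψ X| ≤ ε / 3 := by
    intro X hX
    have hX0 : (0 : ℝ) < X := by linarith
    have h1 : ∀ y : ℝ, |φ y - ψ y| ≤ A * 2 ^ q / ((K : ℝ) + 1) * |y| ^ (2 * (q + 1)) := by
      intro y
      rcases le_total |y| ((K : ℝ) + 1) with h | h
      · rw [hψdef]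
        simp only
        rw [cut_eq_one h, mul_one, sub_self, abs_zero]
        positivity
      · have hy1 : 1 ≤ |y| := by
          have : (0 : ℝ) ≤ K := Nat.cast_nonneg K
          linarith
        have h2 : |φ y - ψ y| ≤ |φ y| := by
          have : φ y - ψ y = φ y * (1 - cut K y) := by
            rw [hψdef]
            ring
          rw [this, abs_mul]
          refine mul_le_of_le_one_right (abs_nonneg _) ?_
          rw [abs_of_nonneg (by linarith [cut_le_one K y])]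
          linarith [cut_nonneg K y]
        refine h2.trans ((hg y).trans ?_)
        have h3 : (1 + |y|) ^ q ≤ 2 ^ q * |y| ^ q := by
          rw [← mul_pow]
          exact pow_le_pow_left₀ (by positivity) (by linarith) q
        have h4 : |y| ^ q * ((K : ℝ) + 1) ≤ |y| ^ (2 * (q + 1)) := by
          calc |y| ^ q * ((K : ℝ) + 1) ≤ |y| ^ q * |y| := mul_le_mul_of_nonneg_left h (by positivity)
            _ = |y| ^ (q + 1) := (pow_succ _ _).symm
            _ ≤ |y| ^ (2 * (q + 1)) := pow_le_pow_right₀ hy1 (by omega)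
        have h5 : |y| ^ q ≤ |y| ^ (2 * (q + 1)) / ((K : ℝ) + 1) := (le_div_iff₀ hK0).2 h4
        calc A * (1 + |y|) ^ q ≤ A * (2 ^ q * |y| ^ q) := mul_le_mul_of_nonneg_left h3 hA
          _ ≤ A * (2 ^ q * (|y| ^ (2 * (q + 1)) / ((K : ℝ) + 1))) := by gcongr
          _ = A * 2 ^ q / ((K : ℝ) + 1) * |y| ^ (2 * (q + 1)) := by ring
    have h2 : |mn H φ X - mn H ψ X| ≤ A * 2 ^ q / ((K : ℝ) + 1) * mn H (fun y => |y| ^ (2 * (q + 1))) X := by
      unfold mn
      rw [← mul_sub, ← integral_sub (mn_int hO hX hφ) (mn_int hO hX hψ), abs_mul, abs_of_pos (inv_pos.2 hX0),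
        mul_left_comm]
      refine mul_le_mul_of_nonneg_left ?_ (inv_pos.2 hX0).le
      rw [← integral_const_mul]
      refine (abs_integral_le_integral_abs).trans ?_
      exact setIntegral_mono_on (mn_int hO hX (φ := fun y => |φ y - ψ y|) (hφ.sub hψ).abs)
        (mn_int hO hX (φ := fun y => A * 2 ^ q / ((K : ℝ) + 1) * |y| ^ (2 * (q + 1))) (by fun_prop))
        measurableSet_Icc fun R _ => h1 _
    calc |mn H φ X - mn H ψ X| ≤ A * 2 ^ q / ((K : ℝ) + 1) * mn H (fun y => |y| ^ (2 * (q + 1))) X := h2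
      _ ≤ A * 2 ^ q / ((K : ℝ) + 1) * C := mul_le_mul_of_nonneg_left (mean_pow_le hO hid (Nat.succ_pos q) hC0 hC hX) (by positivity)
      _ = A * 2 ^ q * C / ((K : ℝ) + 1) := by ring
      _ ≤ ε / 3 := hK1
  -- the polynomial
  set K' : ℕ := 2 * (K + 1) with hK'def
  have hK'c : (K' : ℝ) = 2 * ((K : ℝ) + 1) := by rw [hK'def]; push_cast; ring
  obtain ⟨P, hP⟩ := exists_polynomial_near_of_continuousOn (-(2 * ((K' : ℝ) + 1))) (2 * ((K' : ℝ) + 1)) ψ hψ.continuousOn
    (ε / 3) (by positivity)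
  have hPc : Continuous fun y => ∑ j ∈ Finset.range (P.natDegree + 1), P.coeff j * fjk j K' y :=
    continuous_finsetSum _ fun j _ => continuous_const.mul ((continuous_pow j).mul (cut_cont K'))
  have hnear : ∀ y, |ψ y - ∑ j ∈ Finset.range (P.natDegree + 1), P.coeff j * fjk j K' y| ≤ ε / 3 := by
    intro y
    have e1 : ∑ j ∈ Finset.range (P.natDegree + 1), P.coeff j * fjk j K' y = P.eval y * cut K' y := by
      rw [Polynomial.eval_eq_sum_range, Finset.sum_mul]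
      refine Finset.sum_congr rfl fun j _ => ?_
      unfold fjk
      ring
    have e2 : ψ y = ψ y * cut K' y := by
      rcases le_total |y| ((K' : ℝ) + 1) with h | h
      · rw [cut_eq_one h, mul_one]
      · have : cut K y = 0 := cut_eq_zero (by rw [← hK'c]; linarith)
        rw [hψdef]
        simp only
        rw [this, mul_zero, zero_mul]
    rw [e1, e2, ← sub_mul, abs_mul, abs_of_nonneg (cut_nonneg K' y)]
    rcases le_total |y| (2 * ((K' : ℝ) + 1)) with h | h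
    · have h1 := hP y (abs_le.1 h)
      rw [abs_sub_comm] at h1
      calc |ψ y - P.eval y| * cut K' y ≤ |ψ y - P.eval y| * 1 :=
            mul_le_mul_of_nonneg_left (cut_le_one _ _) (abs_nonneg _)
        _ ≤ ε / 3 := by linarith
    · rw [cut_eq_zero h, mul_zero]
      positivity
  obtain ⟨m, hm⟩ := lim_sum hO (g := fun j => fjk j K') (fun j => (continuous_pow j).mul (cut_cont K'))
    (fun j => hS j K') (fun j => P.coeff j) (P.natDegree + 1)
  obtain ⟨X₀, hX₀, h1⟩ := hm (ε / 3) (by positivity)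
  refine ⟨m, X₀, hX₀, fun X hX => ?_⟩
  have hX' : 1 ≤ X := hX₀.trans hX
  have e1 := htail X hX'
  have e2 := mn_near hO hX' hψ hPc hnear
  have e3 := h1 X hX
  change |mn H (fun y => ∑ j ∈ Finset.range (P.natDegree + 1), P.coeff j * fjk j K' y) X - m| ≤ ε / 3 at e3
  rw [abs_le] at e1 e2 e3 ⊢
  constructor <;> linarith [e1.1, e1.2, e2.1, e2.2, e3.1, e3.2]

end Pool.Agent.Helper85.WC
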